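import Pool.Agent.Q75.HM.Stm

set_option autoImplicit false

/-!
# Project HM (helper75), job BA: the first step
-/

namespace Pool.Agent.Q241.HMA

open Complex Set Metric Filter Topology

open scoped Real ComplexConjugate

open Pool.Agent.Q75.HM

/-- it is enough to bound the competitors -/
theorem qn_le {Ω : Set ℂ} {p z : ℂ} {B : ℝ}
    (h : ∀ f : ℂ → ℂ, DifferentiableOn ℂ f Ω → MapsTo f Ω (ball 0 1) → f p = 0 →
      ‖dslope f p z‖ ≤ B) : qn Ω p z ≤ B := by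
  refine csSup_le ⟨‖dslope (fun _ : ℂ => (0 : ℂ)) p z‖, fun _ => 0, differentiableOn_const _, ?_,
    rfl, rfl⟩ ?_
  · intro w _
    simp
  · rintro x ⟨f, hf, hm, hp, rfl⟩
    exact h f hf hm hp

/-- `qn` at a point near the centre -/
theorem qn_near {Ω : Set ℂ} {c0 : ℝ} (hc0 : 0 < c0) (hb : ball (0 : ℂ) c0 ⊆ Ω)
    (hcomp : ∀ f : ℂ → ℂ, DifferentiableOn ℂ f Ω → MapsTo f Ω (ball 0 1) → f 0 = 0 →
      ‖dslope f 0 0‖ ≤ qn Ω 0 0) {x : ℂ} (hx : ‖x‖ < c0) :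
    qn Ω 0 x ≤ qn Ω 0 0 + 2 * ‖x‖ / c0 ^ 2 := by
  refine qn_le fun f hf hm h0 => ?_
  have hfb : DifferentiableOn ℂ f (ball 0 c0) := hf.mono hb
  have hmb : MapsTo f (ball 0 c0) (closedBall (f 0) 1) := by
    intro w hw
    rw [h0]
    exact ball_subset_closedBall (hm (hb hw))
  have hk : ∀ w ∈ ball (0 : ℂ) c0, ‖dslope f 0 w‖ ≤ 1 / c0 := fun w hw =>
    Complex.norm_dslope_le_div_of_mapsTo_ball hfb hmb hw
  have hkd : DifferentiableOn ℂ (dslope f 0) (ball 0 c0) :=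
    (differentiableOn_dslope (ball_mem_nhds 0 hc0)).2 hfb
  have hkm : MapsTo (dslope f 0) (ball 0 c0) (closedBall (dslope f 0 0) (2 / c0)) := by
    intro w hw
    rw [mem_closedBall, dist_eq_norm]
    have h1 := hk w hw
    have h2 := hk 0 (mem_ball_self hc0)
    have h3 := norm_sub_le (dslope f 0 w) (dslope f 0 0)
    have h4 : 2 / c0 = 1 / c0 + 1 / c0 := by ring
    rw [h4]
    linarith
  have hx' : x ∈ ball (0 : ℂ) c0 := by simpa using hx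
  have hS := Complex.dist_le_div_mul_dist_of_mapsTo_ball hkd hkm hx'
  rw [dist_eq_norm, dist_zero_right] at hS
  have h5 : ‖dslope f 0 x‖ ≤ ‖dslope f 0 0‖ + ‖dslope f 0 x - dslope f 0 0‖ := by
    have := norm_add_le (dslope f 0 0) (dslope f 0 x - dslope f 0 0)
    simpa using this
  have h6 := hcomp f hf hm h0
  have h7 : 2 / c0 / c0 * ‖x‖ = 2 * ‖x‖ / c0 ^ 2 := by
    field_simp
  rw [h7] at hS
  linarith

/-- an affine change of variables -/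
theorem qn_affine {Ω Ω' : Set ℂ} {l τ : ℝ} (hl : 0 < l) (hτ : 0 < τ)
    (hmap : ∀ z ∈ Ω, (l : ℂ) * z + (τ : ℂ) ∈ Ω') (h0 : (0 : ℂ) ∈ Ω)
    (hO : IsOpen Ω')
    (hcomp : ∀ f : ℂ → ℂ, DifferentiableOn ℂ f Ω → MapsTo f Ω (ball 0 1) → f 0 = 0 →
      ‖dslope f 0 (-(τ / l : ℝ) : ℂ)‖ ≤ qn Ω 0 (-(τ / l : ℝ) : ℂ)) :
    qn Ω' τ 0 ≤ l⁻¹ * qn Ω 0 (-(τ / l : ℝ) : ℂ) := by
  refine qn_le fun f hf hm hp => ?_
  set g : ℂ → ℂ := fun z => f ((l : ℂ) * z + τ) with hg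
  have hgd : DifferentiableOn ℂ g Ω :=
    hf.comp ((differentiableOn_id.const_mul (l : ℂ)).add_const (τ : ℂ)) hmap
  have hgm : MapsTo g Ω (ball 0 1) := fun z hz => hm (hmap z hz)
  have hg0 : g 0 = 0 := by simp [hg, hp]
  have hlc : (l : ℂ) ≠ 0 := by exact_mod_cast hl.ne'
  have hτc : (τ : ℂ) ≠ 0 := by exact_mod_cast hτ.ne'
  have hx0 : (-(τ / l : ℝ) : ℂ) ≠ 0 := by
    rw [Complex.ofReal_div]
    exact neg_ne_zero.2 (div_ne_zero hτc hlc)
  have h1 := hcomp g hgd hgm hg0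
  rw [dslope_of_ne _ hx0, slope_def_field, hg0] at h1
  have h2 : g (-(τ / l : ℝ) : ℂ) = f 0 := by
    rw [hg]
    simp only
    congr 1
    push_cast
    field_simp
    ring
  rw [h2] at h1
  rw [dslope_of_ne _ hτc.symm, slope_def_field, hp]
  have h3 : (f 0 - 0) / (0 - (τ : ℂ)) = (l : ℂ)⁻¹ * ((f 0 - 0) / (-(τ / l : ℝ) - 0)) := by
    push_cast
    simp only [sub_zero, zero_sub]
    field_simp
  rw [h3, norm_mul, norm_inv, Complex.norm_real, Real.norm_of_nonneg hl.le]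
  exact mul_le_mul_of_nonneg_left h1 (inv_nonneg.2 hl.le)

theorem ba (hQB : S_QB) (hWD : S_WD) : S_BA := by
  intro H c0 M C0 hH hS
  obtain ⟨hLD, hHb, hc0, hHS, hcross⟩ := hH
  obtain ⟨hC0, hstar⟩ := hS
  obtain ⟨hDm, hstrip, -, -⟩ := hWD H 0 c0 M hLD hc0 hHS (fun z hz => (hHb z hz).2)
  have h0 : (0 : ℂ) ∈ Wd H 0 := hstrip 0 (by simpa using hc0)
  have hball : ball (0 : ℂ) c0 ⊆ Wd H 0 := by
    intro z hz
    refine hstrip z ?_
    have := mem_ball_zero_iff.1 hz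
    exact (Complex.abs_im_le_norm z).trans_lt this
  obtain ⟨-, hq0, -, hcomp0, -⟩ := hQB (Wd H 0) 0 0 hDm h0 h0
  set q0 := qn (Wd H 0) 0 0 with hq0d
  refine ⟨2 * C0 + 4 / (c0 ^ 2 * q0), min (1 / (2 * (C0 + 1))) (c0 / 4), by positivity,
    by positivity, fun τ hτ hτ0 => ?_⟩
  have hτ1 : τ ≤ 1 / (2 * (C0 + 1)) := hτ0.trans (min_le_left _ _)
  have hτ2 : τ ≤ c0 / 4 := hτ0.trans (min_le_right _ _)
  have hCτ : C0 * τ ≤ 1 / 2 := by
    rw [le_div_iff₀ (by positivity)] at hτ1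
    nlinarith
  set l := 1 - C0 * τ with hl
  have hl2 : 1 / 2 ≤ l := by rw [hl]; linarith
  have hl0 : 0 < l := by linarith
  have hτl : τ / l ≤ 2 * τ := by
    rw [div_le_iff₀ hl0]
    nlinarith
  have hxn : ‖(-(τ / l : ℝ) : ℂ)‖ = τ / l := by
    rw [norm_neg, Complex.norm_real, Real.norm_of_nonneg (by positivity)]
  have hxc : ‖(-(τ / l : ℝ) : ℂ)‖ < c0 := by
    rw [hxn]
    linarith
  have hxD : (-(τ / l : ℝ) : ℂ) ∈ Wd H 0 := hball (by simpa using hxc)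
  -- the doubled domain is open
  have hHSm : ∀ z ∈ H ∪ HS τ c0, |z.im| < M := by
    rintro z (hz | hz)
    · exact (hHb z hz).2
    · have : (⟨-1, z.im⟩ : ℂ) ∈ H := hHS ⟨by norm_num, hz.2⟩
      exact (hHb _ this).2
  have hLD2 : LD (H ∪ HS τ c0) := by
    constructor
    · refine hLD.1.union ?_
      have e : HS τ c0 = {z : ℂ | z.re < τ} ∩ {z : ℂ | |z.im| < c0} := rfl
      rw [e]
      exact (isOpen_lt Complex.continuous_re continuous_const).inter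
        (isOpen_lt Complex.continuous_im.abs continuous_const)
    · rintro z (hz | hz) w h1 h2
      · exact Or.inl (hLD.2 z hz w h1 h2)
      · exact Or.inr ⟨h1.trans_lt hz.1, h2.trans_lt hz.2⟩
  have hDm2 := (hWD (H ∪ HS τ c0) τ c0 M hLD2 hc0 subset_union_right hHSm).1
  obtain ⟨-, -, -, hcompx, -⟩ := hQB (Wd H 0) 0 _ hDm h0 hxD
  have hA := qn_affine (Ω := Wd H 0) (Ω' := Wd (H ∪ HS τ c0) τ) hl0 hτ
    (fun z hz => hstar τ hτ (by linarith) z hz) h0 hDm2.1 hcompx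
  have hB := qn_near (Ω := Wd H 0) hc0 hball hcomp0 hxc
  rw [hxn] at hB
  refine hA.trans ?_
  have h1 : l⁻¹ ≤ Real.exp (2 * C0 * τ) := by
    have e1 : l⁻¹ ≤ 1 + 2 * C0 * τ := by
      rw [inv_le_iff_one_le_mul₀ hl0, hl]
      nlinarith [mul_nonneg hC0 hτ.le]
    have e2 := Real.add_one_le_exp (2 * C0 * τ)
    linarith
  have h2 : qn (Wd H 0) 0 (-(τ / l : ℝ) : ℂ) ≤ q0 * Real.exp (4 / (c0 ^ 2 * q0) * τ) := by
    have e1 := Real.add_one_le_exp (4 / (c0 ^ 2 * q0) * τ)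
    have e2 : 2 * (τ / l) / c0 ^ 2 ≤ 4 * τ / c0 ^ 2 := by
      exact div_le_div_of_nonneg_right (by linarith) (by positivity)
    have e3 : q0 * (4 / (c0 ^ 2 * q0) * τ + 1) = q0 + 4 * τ / c0 ^ 2 := by
      field_simp
      ring
    have e4 := mul_le_mul_of_nonneg_left e1 hq0.le
    linarith
  calc l⁻¹ * qn (Wd H 0) 0 (-(τ / l : ℝ) : ℂ)
      ≤ Real.exp (2 * C0 * τ) * (q0 * Real.exp (4 / (c0 ^ 2 * q0) * τ)) := by
        apply mul_le_mul h1 h2 _ (Real.exp_pos _).le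
        exact (hQB (Wd H 0) 0 _ hDm h0 hxD).2.1.le
    _ = q0 * Real.exp ((2 * C0 + 4 / (c0 ^ 2 * q0)) * τ) := by
        rw [add_mul, Real.exp_add]
        ring

end Pool.Agent.Q241.HMA
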