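import Pool.Agent.Q75.HM.Stm

set_option autoImplicit false

/-!
# Project HM (helper75), job HN: Harnack inequality
-/

namespace Pool.Agent.Q241.HMA

open Complex Set Metric Filter Topology

open scoped Real ComplexConjugate

open Pool.Agent.Q75.HM

/-- numbers in the right half plane with small pseudo-hyperbolic distance -/
theorem re_le_of_dist {a b : ℂ} {ρ : ℝ} (ha : 0 < a.re) (hb : 0 < b.re) (hρ : 0 ≤ ρ) (hρ1 : ρ < 1)
    (h : ‖a - b‖ ≤ ρ * ‖a + conj b‖) : a.re * (1 - ρ) ≤ b.re * (1 + ρ) := by
  have h1 : ‖a - b‖ ^ 2 ≤ ρ ^ 2 * ‖a + conj b‖ ^ 2 := by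
    rw [← mul_pow]
    exact pow_le_pow_left₀ (norm_nonneg _) h 2
  rw [Complex.sq_norm, Complex.sq_norm, Complex.normSq_apply, Complex.normSq_apply] at h1
  simp only [Complex.sub_re, Complex.sub_im, Complex.add_re, Complex.add_im, Complex.conj_re,
    Complex.conj_im] at h1
  have h2 : ρ ^ 2 ≤ 1 := by nlinarith
  have h3 : (a.re - b.re) ^ 2 ≤ (ρ * (a.re + b.re)) ^ 2 := by
    nlinarith [mul_nonneg (sub_nonneg.2 h2) (sq_nonneg (a.im - b.im))]
  have h5 : a.re - b.re ≤ ρ * (a.re + b.re) := by
    have h6 := abs_le_of_sq_le_sq h3 (by positivity)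
    exact (le_abs_self _).trans h6
  nlinarith

theorem hn : S_HN := by
  intro h z1 z r hr hd hb hz
  have hz1 : z1 ∈ ball z1 r := mem_ball_self hr
  have hq : DifferentiableOn ℂ (fun w => -(deriv h w / h w)) (ball z1 r) :=
    ((hd.deriv isOpen_ball).div hd (fun w hw => (hb w hw).1)).neg
  obtain ⟨L, hL0, hL⟩ := hq.isExactOn_ball.with_val_at z1 (-Complex.log (h z1))
  have hDh : ∀ w ∈ ball z1 r, HasDerivAt h (deriv h w) w := fun w hw =>
    (hd.differentiableAt (isOpen_ball.mem_nhds hw)).hasDerivAt
  have hk : ∀ w ∈ ball z1 r, HasDerivAt (fun w => h w * cexp (L w)) 0 w := by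
    intro w hw
    have e := (hDh w hw).mul (hL w hw).cexp
    refine e.congr_deriv ?_
    have := (hb w hw).1
    field_simp
    ring
  have hc : ∀ w ∈ ball z1 r, h w * cexp (L w) = 1 := by
    intro w hw
    have e : h w * cexp (L w) = h z1 * cexp (L z1) :=
      IsOpen.is_const_of_deriv_eq_zero isOpen_ball (convex_ball z1 r).isPreconnected
      (f := fun w => h w * cexp (L w))
      (fun w hw => (hk w hw).differentiableAt.differentiableWithinAt)
      (fun w hw => (hk w hw).deriv) hw hz1
    rw [e, hL0, Complex.exp_neg, Complex.exp_log (hb z1 hz1).1]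
    exact mul_inv_cancel₀ (hb z1 hz1).1
  have hn : ∀ w ∈ ball z1 r, ‖h w‖ = Real.exp (-(L w).re) := by
    intro w hw
    have e : h w = cexp (-L w) := by
      rw [Complex.exp_neg]
      exact eq_inv_of_mul_eq_one_left (hc w hw)
    rw [e, Complex.norm_exp, Complex.neg_re]
  have hre : ∀ w ∈ ball z1 r, 0 ≤ (L w).re := by
    intro w hw
    have e := (hb w hw).2
    rw [hn w hw, Real.exp_le_one_iff] at e
    linarith
  set d := ‖z - z1‖ with hd0
  have hdr : d < r := by
    have := mem_ball.1 hz
    rwa [dist_eq_norm] at this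
  have hd00 : 0 ≤ d := norm_nonneg _
  -- the main inequality
  have hmain : ∀ ε : ℝ, 0 < ε → ((L z).re + ε) * (1 - d / r) ≤ ((L z1).re + ε) * (1 + d / r) := by
    intro ε hε
    have hden : ∀ w ∈ ball z1 r, 0 < ((L w + ε) + conj (L z1 + ε)).re := by
      intro w hw
      simp only [Complex.add_re, Complex.conj_re, Complex.ofReal_re]
      have := hre w hw
      have := hre z1 hz1
      linarith
    have hden' : ∀ w ∈ ball z1 r, (L w + ε) + conj (L z1 + ε) ≠ 0 := by
      intro w hw h0
      have := hden w hw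
      rw [h0] at this
      simp at this
    set g : ℂ → ℂ := fun w => (L w - L z1) / ((L w + ε) + conj (L z1 + ε)) with hg
    have hLd : DifferentiableOn ℂ L (ball z1 r) := fun w hw =>
      (hL w hw).differentiableAt.differentiableWithinAt
    have hgd : DifferentiableOn ℂ g (ball z1 r) :=
      (hLd.sub_const _).div ((hLd.add_const _).add_const _) hden'
    have hg0 : g z1 = 0 := by simp [hg]
    have hmaps : MapsTo g (ball z1 r) (ball (g z1) 1) := by
      intro w hw
      rw [hg0, mem_ball_zero_iff, hg]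
      simp only
      rw [norm_div, div_lt_one (norm_pos_iff.2 (hden' w hw))]
      have e1 : ‖L w - L z1‖ ^ 2 < ‖(L w + ε) + conj (L z1 + ε)‖ ^ 2 := by
        rw [Complex.sq_norm, Complex.sq_norm, Complex.normSq_apply, Complex.normSq_apply]
        simp only [Complex.sub_re, Complex.sub_im, Complex.add_re, Complex.add_im,
          Complex.conj_re, Complex.conj_im, Complex.ofReal_re, Complex.ofReal_im, map_add,
          Complex.conj_ofReal]
        have := hre w hw
        have := hre z1 hz1
        nlinarith [mul_nonneg (hre w hw) (hre z1 hz1), mul_pos hε hε,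
          mul_nonneg (hre w hw) hε.le, mul_nonneg (hre z1 hz1) hε.le]
      exact lt_of_pow_lt_pow_left₀ 2 (norm_nonneg _) e1
    have hS := Complex.dist_le_div_mul_dist_of_mapsTo_ball hgd
      (hmaps.mono_right ball_subset_closedBall) hz
    rw [hg0, dist_zero_right, dist_eq_norm] at hS
    have hS2 : ‖g z‖ ≤ d / r := by
      refine hS.trans (le_of_eq ?_)
      rw [hd0]
      ring
    have hS3 : ‖(L z + ε) - (L z1 + ε)‖ ≤ d / r * ‖(L z + ε) + conj (L z1 + ε)‖ := by
      rw [hg] at hS2
      simp only at hS2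
      rw [norm_div, div_le_iff₀ (norm_pos_iff.2 (hden' z hz))] at hS2
      simpa using hS2
    have e := re_le_of_dist (a := L z + ε) (b := L z1 + ε) (ρ := d / r)
      (by simp only [Complex.add_re, Complex.ofReal_re]; have := hre z hz; linarith)
      (by simp only [Complex.add_re, Complex.ofReal_re]; have := hre z1 hz1; linarith)
      (by positivity) ((div_lt_one hr).2 hdr) hS3
    simpa only [Complex.add_re, Complex.ofReal_re] using e
  have hlim : (L z).re * (1 - d / r) ≤ (L z1).re * (1 + d / r) := by
    refine le_of_forall_pos_le_add fun η hη => ?_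
    have e := hmain (η / 4) (by positivity)
    have h1 : 0 ≤ d / r := by positivity
    have h2 : d / r < 1 := (div_lt_one hr).2 hdr
    nlinarith
  have hrd : 0 < r - d := by linarith
  have hlim2 : (L z).re ≤ (L z1).re * ((r + d) / (r - d)) := by
    rw [mul_div_assoc', le_div_iff₀ hrd]
    have e1 : (L z).re * (r - d) = r * ((L z).re * (1 - d / r)) := by
      field_simp
    have e2 : (L z1).re * (r + d) = r * ((L z1).re * (1 + d / r)) := by
      field_simp
    rw [e1, e2]
    exact mul_le_mul_of_nonneg_left hlim hr.le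
  rw [hn z1 hz1, hn z hz, ← Real.exp_mul]
  apply Real.exp_le_exp.2
  linarith

end Pool.Agent.Q241.HMA
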