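import Pool.Agent.Q75.HM.Stm

set_option autoImplicit false

/-!
# Project HM (helper75), job MP: minimum principle for lower semicontinuous super-mean functions
-/

namespace Pool.Agent.Q241.HMA

open Complex Set Metric Filter Topology MeasureTheory

open scoped Real ComplexConjugate

open Pool.Agent.Q75.HM

/-- a lower semicontinuous function on a neighbourhood of a circle which is at least `m` there and
whose mean is at most `m` is equal to `m` on the circle -/
theorem eq_on_circle {C : Set ℂ} {D : ℂ → ℝ} (hls : LowerSemicontinuousOn D C) {a : ℂ} {r m B : ℝ}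
    (hr : 0 < r) (hsub : sphere a r ⊆ C) (hB : ∀ z ∈ sphere a r, |D z| ≤ B)
    (hm : ∀ z ∈ sphere a r, m ≤ D z)
    (hint : (∫ θ in (0 : ℝ)..(2 * π), D (circleMap a r θ)) ≤ 2 * π * m) :
    ∀ w ∈ sphere a r, D w ≤ m := by
  intro w hw
  by_contra hcon
  push Not at hcon
  have hmem : ∀ θ : ℝ, circleMap a r θ ∈ sphere a r := fun θ => circleMap_mem_sphere a hr.le θ
  have hlsc : LowerSemicontinuous (fun θ : ℝ => D (circleMap a r θ)) := by
    rw [← lowerSemicontinuousOn_univ_iff]
    exact hls.comp (continuous_circleMap a r).continuousOn (fun θ _ => hsub (hmem θ))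
  have hmeas : Measurable (fun θ : ℝ => D (circleMap a r θ)) := hlsc.measurable
  have hii : IntervalIntegrable (fun θ : ℝ => D (circleMap a r θ)) volume 0 (2 * π) := by
    rw [intervalIntegrable_iff]
    refine Measure.integrableOn_of_bounded (M := B) ?_ hmeas.aestronglyMeasurable ?_
    · rw [uIoc_of_le Real.two_pi_pos.le]
      exact measure_Ioc_lt_top.ne
    · exact Eventually.of_forall fun θ => by
        rw [Real.norm_eq_abs]
        exact hB _ (hmem θ)
  have hii2 : IntervalIntegrable (fun θ : ℝ => D (circleMap a r θ) - m) volume 0 (2 * π) :=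
    hii.sub intervalIntegrable_const
  have hpos : 0 < ∫ θ in (0 : ℝ)..(2 * π), (D (circleMap a r θ) - m) := by
    rw [intervalIntegral.integral_pos_iff_support_of_nonneg_ae
      (Eventually.of_forall fun θ => sub_nonneg.2 (hm _ (hmem θ))) hii2]
    refine ⟨Real.two_pi_pos, ?_⟩
    have hw' : w ∈ circleMap a r '' Ioc 0 (2 * π) := by
      rw [image_circleMap_Ioc, abs_of_pos hr]
      exact hw
    obtain ⟨θ0, hθ0, rfl⟩ := hw'
    have hev : ∀ᶠ θ in 𝓝 θ0, m < D (circleMap a r θ) := hlsc θ0 m hcon
    obtain ⟨δ, hδ, hδ2⟩ := Metric.eventually_nhds_iff.1 hev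
    have hlt : max 0 (θ0 - δ) < θ0 := max_lt hθ0.1 (by linarith)
    have hsub2 : Ioo (max 0 (θ0 - δ)) θ0 ⊆
        Function.support (fun θ : ℝ => D (circleMap a r θ) - m) ∩ Ioc 0 (2 * π) := by
      intro θ hθ
      have h1 : θ0 - δ < θ := lt_of_le_of_lt (le_max_right _ _) hθ.1
      have h2 : 0 < θ := lt_of_le_of_lt (le_max_left _ _) hθ.1
      refine ⟨?_, h2, hθ.2.le.trans hθ0.2⟩
      have h3 := hδ2 (y := θ) (by
        rw [Real.dist_eq, abs_sub_lt_iff]
        constructor
        · linarith [hθ.2]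
        · linarith)
      simp only [Function.mem_support]
      intro h0
      linarith
    refine lt_of_lt_of_le ?_ (measure_mono hsub2)
    rw [Real.volume_Ioo]
    exact ENNReal.ofReal_pos.2 (by linarith)
  rw [intervalIntegral.integral_sub hii intervalIntegrable_const,
    intervalIntegral.integral_const, smul_eq_mul] at hpos
  linarith

theorem mp : S_MP := by
  intro C D hCo hCp hls hbd hmean hbdry
  by_contra hcon
  push Not at hcon
  obtain ⟨z0, hz0, hneg⟩ := hcon
  set ε := -D z0 / 2 with hε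
  have hε0 : 0 < ε := by rw [hε]; linarith
  obtain ⟨K, hKC, hK, hKb⟩ := hbdry ε hε0
  have hz0K : z0 ∈ K := by
    by_contra h
    have := hKb z0 hz0 h
    rw [hε] at this
    linarith
  obtain ⟨a0, ha0, hmin⟩ := (hls.mono hKC).exists_isMinOn ⟨z0, hz0K⟩ hK
  set m := D a0 with hm
  have hm0 : m ≤ D z0 := hmin hz0K
  have hmε : m < -ε := by rw [hε]; linarith
  have hminC : ∀ z ∈ C, m ≤ D z := by
    intro z hz
    by_cases h : z ∈ K
    · exact hmin h
    · exact hmε.le.trans (hKb z hz h)
  set A : Set ℂ := {z | z ∈ C ∧ D z ≤ m} with hA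
  have hAo : IsOpen A := by
    rw [Metric.isOpen_iff]
    intro a ha
    obtain ⟨R, hR, hRC⟩ := Metric.isOpen_iff.1 hCo a ha.1
    have hDa : D a = m := le_antisymm ha.2 (hminC a ha.1)
    refine ⟨R, hR, fun w hw => ?_⟩
    refine ⟨hRC hw, ?_⟩
    by_cases hwa : w = a
    · rw [hwa]
      exact ha.2
    set r := dist w a with hr
    have hr0 : 0 < r := dist_pos.2 hwa
    have hrR : r < R := mem_ball.1 hw
    have hcb : closedBall a r ⊆ C := (closedBall_subset_ball hrR).trans hRC
    obtain ⟨B, hB⟩ := hbd (sphere a r) (sphere_subset_closedBall.trans hcb) (isCompact_sphere a r)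
    have hmn := hmean a r hr0 hcb
    rw [hDa] at hmn
    exact eq_on_circle hls hr0 (sphere_subset_closedBall.trans hcb) hB
      (fun z hz => hminC z (hcb (sphere_subset_closedBall hz))) hmn w (mem_sphere.2 rfl)
  have hAC : C ⊆ A := by
    refine hCp.subset_of_closure_inter_subset hAo ⟨a0, hKC ha0, hKC ha0, le_refl _⟩ ?_
    rintro z ⟨hzc, hzC⟩
    refine ⟨hzC, ?_⟩
    by_contra h
    push Not at h
    have hev := hls z hzC m h
    rw [hCo.nhdsWithin_eq hzC] at hev
    rw [mem_closure_iff_frequently] at hzc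
    obtain ⟨y, hy, hy2⟩ := (hzc.and_eventually hev).exists
    exact absurd hy.2 (not_le.2 hy2)
  have hCK : C ⊆ K := by
    intro z hz
    by_contra h
    have h1 := hKb z hz h
    have h2 := (hAC hz).2
    linarith
  have hCe : C = K := Subset.antisymm hCK hKC
  have hclo : IsClosed C := by
    rw [hCe]
    exact hK.isClosed
  have huniv : C = univ := (isClopen_iff.1 ⟨hclo, hCo⟩).resolve_left (Set.Nonempty.ne_empty ⟨z0, hz0⟩)
  rw [← hCe, huniv] at hK
  exact noncompact_univ ℂ hK

end Pool.Agent.Q241.HMA
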